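import Pool.Agent.J4H20.TR.Stm

/-!
# Project TP: `p`-rank at least `n / 2 + n / (p - 1) - 1` for totally complex fields of degree `n = (p - 1) e`: statements

`f = ∏ (X - a i) = g ^ p + r`, `p e` distinct integers `a i`, `g` monic of degree `e`, `deg r < (p - 1) e`; `K = ℚ(θ)`,
`(M g(θ) + c) ^ p = M ^ p f(θ)`, i.e. `HP p g r c M (θ) = 0`, an equation of degree `n = (p - 1) e`.
-/

set_option autoImplicit false

namespace Pool.Agent.J4H20.TP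

open Polynomial NumberField nonZeroDivisors Pool.Agent.W289.CG

/-- the data -/
structure DatP (p e k : ℕ) where
  a : Fin (k + 2) → ℤ
  g : ℤ[X]
  r : ℤ[X]
  hp : p.Prime
  hp2 : 2 < p
  he : 2 ≤ e
  hk : k + 2 = p * e
  ha : Function.Injective a
  hg : g.Monic
  hgn : g.natDegree = e
  hr : r.degree < ((p - 1) * e : ℕ)
  hf : ∏ i, (X - C (a i)) = g ^ p + r

/-- `(M g + c) ^ p - M ^ p (g ^ p + r)` -/
noncomputable def HP (p : ℕ) (g r : ℤ[X]) (c M : ℤ) : ℤ[X] :=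
  (C M * g + C c) ^ p - C (M ^ p) * (g ^ p + r)

/-- a test for the index `i` -/
structure TstP {p e k : ℕ} (D : DatP p e k) (c M : ℤ) (i : Fin k) (q : ℕ) (x : ℤ) : Prop where
  prime : q.Prime
  root : (q : ℤ) ∣ (HP p D.g D.r c M).eval x
  simple : ¬ (q : ℤ) ∣ (derivative (HP p D.g D.r c M)).eval x
  ne : ∀ j, ((x - D.a j : ℤ) : ZMod q) ≠ 0
  pw : ∀ j, j ≠ i.castSucc.castSucc → j ≠ (Fin.last k).castSucc →
    ∃ y : ZMod q, ((x - D.a j : ℤ) : ZMod q) = y ^ p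
  np : ¬ ∃ y : ZMod q, ((x - D.a i.castSucc.castSucc : ℤ) : ZMod q) = y ^ p

/-- (NAT) degree `(p - 1) e` and leading coefficient `p c M ^ (p - 1)` (binomial theorem) -/
def S_NAT : Prop :=
  ∀ (p e k : ℕ) (D : DatP p e k) (c M : ℤ), c ≠ 0 → M ≠ 0 →
    (HP p D.g D.r c M).natDegree = (p - 1) * e

/-- (DEG), (DSC): residue degree and ramification at `q`.  Let `P` be a prime above `q`, `v` its (additive) valuation.  `v θ < 0`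
(else `c ^ p ∈ P` from `(M g(θ) + c) ^ p = M ^ p f(θ)`), the equation `∑_{j ≥ 1} binom(p,j) c ^ j (M g(θ)) ^ (p - j) = M ^ p r(θ)` gives
`v (M g(θ)) = 0`, i.e. `e v(θ) = - v(q)`, so `e ∣ v(q)`; `z = M g(θ)` has `(z + c) ^ p ≡ z ^ p`, `z ≢ 0` modulo `P`, so
`1 + c / z` is a `p`-th root of unity `≠ 1` in the residue field, which has degree `≥ p - 1` over `F_q` as `q` generates
`(ℤ/p)ˣ`.  So `[K : ℚ] ≥ e(P) f(P) ≥ e (p - 1)`. -/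
def S_DEG : Prop :=
  ∀ (p e k : ℕ) (D : DatP p e k) (c M : ℤ) (q : ℕ) (K : Type) [Field K] [NumberField K] (θ : K),
    q.Prime → IsCoprime c M → (q : ℤ) ∣ M → ¬ (q : ℤ) ^ 2 ∣ M → q ≠ p →
    orderOf (q : ZMod p) = p - 1 → aeval θ (HP p D.g D.r c M) = 0 →
    (p - 1) * e ≤ Module.finrank ℚ K

/-- see `S_DEG`: `e ∣ v(q)`, `e ≥ 2`; the end as in `W505/CG/Disc.lean` (different, norm) -/
def S_DSC : Prop :=
  ∀ (p e k : ℕ) (D : DatP p e k) (c M : ℤ) (q : ℕ) (K : Type) [Field K] [NumberField K] (θ : K),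
    q.Prime → IsCoprime c M → (q : ℤ) ∣ M → ¬ (q : ℤ) ^ 2 ∣ M → q ≠ p →
    aeval θ (HP p D.g D.r c M) = 0 → (q : ℤ) ∣ discr K

/-- (LOCP) as `S_LOC` of TR (J4H21/TR/Loc.lean, J4H79/TR/Loc.lean) with `p` for 2 -/
def S_LOCP : Prop :=
  ∀ (p e k : ℕ) (D : DatP p e k) (K : Type) [Field K] [NumberField K] (θ : K) (c M : ℤ), M ≠ 0 →
    IsCoprime c M → (∀ i j, i ≠ j → D.a i - D.a j ∣ M) → aeval θ (HP p D.g D.r c M) = 0 →
    (∀ i, θ - (D.a i : K) ≠ 0) → ∀ i j, ∀ v : IsDedekindDomain.HeightOneSpectrum (𝓞 K), ∃ z : ℤ,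
      v.valuation K ((θ - (D.a i : K)) / (θ - (D.a j : K))) = WithZero.exp ((p : ℤ) * z)

/-- (INDP) `t_INDP : TaskRed → S_INDP`, as `S_IND` of TR (J4H15/TR/Ind.lean): `(x - a i) ^ E = ± y ^ p` with `p ∤ E` makes
`x - a i` a `p`-th power (`- 1 = (- 1) ^ p`) -/
def S_INDP : Prop :=
  ∀ (p e k : ℕ) (D : DatP p e k) (K : Type) [Field K] [NumberField K] (θ : K) (c M : ℤ) (q : ℕ)
    [Fact q.Prime] (i : Fin k) (x : ℤ), TstP D c M i q x →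
    (∃ (φ : K →+* ℚ_[q]) (z : ℤ_[q]), φ θ = (z : ℚ_[q]) ∧ PadicInt.toZMod z = (x : ZMod q)) →
    (∀ j, θ - (D.a j : K) ≠ 0) → ∀ (E : Fin k → ℤ) (y : K),
    (∏ j : Fin k, ((θ - (D.a j.castSucc.castSucc : K)) / (θ - (D.a (Fin.last (k + 1)) : K))) ^ E j =
        y ^ p ∨
      ∏ j : Fin k, ((θ - (D.a j.castSucc.castSucc : K)) / (θ - (D.a (Fin.last (k + 1)) : K))) ^ E j =
        - y ^ p) → (p : ℤ) ∣ E i

/-- (T1P) prescribed `p`-th power classes of shifts, for `q ≡ 1` modulo `p` large, by Weil's bound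
(`Pool.Agent.H435R3.Weil.Main`, used in `W349/CG/Weil.lean`: `weilpow`, `bound`): the number of the `x` with
`χ(x - a j) = 1` for `j ≠ u, v`, `χ(x - a u) = ω`, `χ(x - a v) = ω⁻¹` is `q / p ^ k + O(k √q)` -/
def S_T1P : Prop :=
  ∀ (p k : ℕ) (a : Fin k → ℤ) (u v : Fin k) (d B : ℕ), p.Prime → 2 < p → Function.Injective a → u ≠ v →
    ∃ q : ℕ, q.Prime ∧ B < q ∧ p ∣ q - 1 ∧ ∃ S : Finset (ZMod q), d < S.card ∧ ∀ x ∈ S,
      (∀ j, x ≠ (a j : ZMod q)) ∧ (∀ j, j ≠ u → j ≠ v → ∃ y : ZMod q, x - (a j : ZMod q) = y ^ p) ∧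
      (∃ y : ZMod q, (x - (a u : ZMod q)) * (x - (a v : ZMod q)) = y ^ p) ∧
      ¬ ∃ y : ZMod q, x - (a u : ZMod q) = y ^ p

/-- (T3P) `s = y - g(x)`, `y ^ p = f(x)`; `HP = M ^ p ((g + s) ^ p - f)` modulo `q`, derivative
`M ^ p (p y ^ (p - 1) g' - f')`: not zero if `g'(x) = 0`, else for one of `y`, `ζ y` (`ζ` a `p`-th root of unity modulo `q`);
`B = p` -/
def S_T3P : Prop :=
  ∀ (p e k : ℕ) (D : DatP p e k), ∃ B : ℕ, ∀ (q : ℕ) [Fact q.Prime] (x : ℤ), B < q → p ∣ q - 1 →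
    ∏ j, ((x - D.a j : ℤ) : ZMod q) ≠ 0 →
    (((derivative (∏ i, (X - C (D.a i)))).eval x : ℤ) : ZMod q) ≠ 0 →
    (∃ y : ZMod q, ∏ j, ((x - D.a j : ℤ) : ZMod q) = y ^ p) → ∃ s : ZMod q, ∀ c M : ℤ,
      ¬ (q : ℤ) ∣ M → (c : ZMod q) = s * (M : ZMod q) → (q : ℤ) ∣ (HP p D.g D.r c M).eval x ∧
        ¬ (q : ℤ) ∣ (derivative (HP p D.g D.r c M)).eval x

/-- (T2P) for `p ∤ q - 1` every element is a `p`-th power modulo `q`; `Q = p ^ p f ^ (p - 1) g' ^ p - f' ^ p` is not the zero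
polynomial (value at `a 0`); choose `x` with `Q(x) f(x) ≠ 0` and `B = |Q(x) f(x)| + p` -/
def S_T2P : Prop :=
  ∀ (p e k : ℕ) (D : DatP p e k), ∃ (x : ℤ) (B : ℕ), ∀ (q : ℕ) [Fact q.Prime], B < q → ¬ p ∣ q - 1 →
    ∃ s : ZMod q, ∀ c M : ℤ, ¬ (q : ℤ) ∣ M → (c : ZMod q) = s * (M : ZMod q) →
      (q : ℤ) ∣ (HP p D.g D.r c M).eval x ∧ ¬ (q : ℤ) ∣ (derivative (HP p D.g D.r c M)).eval x

/-- (CHP) `t_CHP : S_T1P → S_T2P → S_T3P → TR.S_T4 → S_CHP`, as `t_CH` of TR (J4H36/TR/Ch.lean): `q₀ > N` a primitive root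
modulo `p` (Dirichlet), not dividing `2 p M₀`; T1P with `u = i`, `v = k`, `d` = number of zeros of `f'`; one prime `q ≡ - 1`
modulo `p` for T2P -/
def S_CHP : Prop :=
  ∀ (p e k : ℕ) (D : DatP p e k) (α β : ℝ) (N : ℕ), 0 < α → α < β →
    ∃ (c M : ℤ) (q₀ : ℕ), 0 < c ∧ 0 < M ∧ IsCoprime c M ∧ (∀ i j, i ≠ j → D.a i - D.a j ∣ M) ∧
      q₀.Prime ∧ N < q₀ ∧ (q₀ : ℤ) ∣ M ∧ ¬ (q₀ : ℤ) ^ 2 ∣ M ∧ q₀ ≠ p ∧
      orderOf (q₀ : ZMod p) = p - 1 ∧ α * M < c ∧ (c : ℝ) < β * M ∧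
      (∀ i : Fin k, ∃ (q : ℕ) (x : ℤ), TstP D c M i q x) ∧
      ∃ (q : ℕ) (x : ℤ), q.Prime ∧ q ≠ p ∧ ¬ p ∣ q - 1 ∧ (q : ℤ) ∣ (HP p D.g D.r c M).eval x ∧
        ¬ (q : ℤ) ∣ (derivative (HP p D.g D.r c M)).eval x

/-- (R1P) as `S_R1` of TR (J4H19/TR/R1.lean) with the `p`-th root -/
def S_R1P : Prop :=
  ∀ (p e : ℕ) (a : Fin e → ℤ), 2 < p → ∃ (g : Fin e → ℚ[X]) (r : Fin ((p - 1) * e) → ℚ[X]),
    (∀ ε : ℚ, (∏ j : Fin p, ∏ i, (X - C ((a i : ℚ) + (j : ℕ) * ε))) =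
      (X ^ e + ∑ j : Fin e, C ((g j).eval ε) * X ^ (j : ℕ)) ^ p +
        ∑ j : Fin ((p - 1) * e), C ((r j).eval ε) * X ^ (j : ℕ)) ∧
    (∀ j : Fin e, (g j).eval 0 = (∏ i, (X - C (a i : ℚ))).coeff j) ∧ ∀ j, (r j).eval 0 = 0

/-- (R3P) `t_R3P : S_R1P → TR.S_R2 → S_R3P`: `a i = i`, `σ` near 1, `ε > 0` small (`p ε < 1`); for `ε = 0`, `σ = 1`,
`P = ((A + 1) ^ p - A ^ p) / p` is monic of degree `(p - 1) e` without real zeros (`p` odd), and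
`((g + σ) ^ p - g ^ p - r) / (p σ)` has coefficients near those of `P` (TR.S_R2, `ncard = 0`; the set is finite, so empty).
Cf. J4H72/TR/R3.lean -/
def S_R3P : Prop :=
  ∀ (p e : ℕ), p.Prime → 2 < p → 1 ≤ e → ∃ (b : Fin p × Fin e → ℚ) (g r : ℚ[X]) (α β : ℝ),
    Function.Injective b ∧ g.Monic ∧ g.natDegree = e ∧ r.degree < ((p - 1) * e : ℕ) ∧
    ∏ i, (X - C (b i)) = g ^ p + r ∧ 0 < α ∧ α < β ∧
    ∀ σ : ℝ, α < σ → σ < β → ∀ x : ℝ, (aeval x g + σ) ^ p ≠ aeval x g ^ p + aeval x r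

/-- (R4P) `t_R4P : S_R3P → S_R4P`: multiply the roots by a common denominator `d`, `σ` becomes `d ^ e σ`; cf.
J4H19/TR/R4.lean -/
def S_R4P : Prop :=
  ∀ (p e : ℕ), p.Prime → 2 < p → 2 ≤ e → ∃ (k : ℕ) (D : DatP p e k) (α β : ℝ), 0 < α ∧ α < β ∧
    ∀ σ : ℝ, α < σ → σ < β → ∀ x : ℝ, (aeval x D.g + σ) ^ p ≠ aeval x D.g ^ p + aeval x D.r

end Pool.Agent.J4H20.TP
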