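import Pool.Agent.W289.CG.Fin
import Pool.Agent.J4H20.TP.Stm

/-!
# Project TP: the fields
-/

set_option autoImplicit false

namespace Pool.Agent.J4H20.TP

open Polynomial NumberField nonZeroDivisors Pool.Agent.W289.CG

lemma HP_aeval {R : Type} [CommRing R] (p : ℕ) (g r : ℤ[X]) (c M : ℤ) (x : R) :
    aeval x (HP p g r c M) = (M * aeval x g + c) ^ p - M ^ p * (aeval x g ^ p + aeval x r) := by
  have h2 : aeval x (C M : ℤ[X]) = (M : R) := by
    rw [aeval_C]; simp
  have h3 : aeval x (C (M ^ p) : ℤ[X]) = (M : R) ^ p := by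
    rw [aeval_C]; simp
  have h4 : aeval x (C c : ℤ[X]) = (c : R) := by
    rw [aeval_C]; simp
  unfold HP
  rw [map_sub, _root_.map_pow (aeval x) (C M * g + C c) p, map_add,
    _root_.map_mul (aeval x) (C M) g, _root_.map_mul (aeval x) (C (M ^ p)) (g ^ p + r), map_add,
    _root_.map_pow (aeval x) g p, h2, h3, h4]

theorem irrP (hNAT : S_NAT) (hDEG : S_DEG) {p e k : ℕ} (D : DatP p e k) (c M : ℤ) (q : ℕ)
    (hc : c ≠ 0) (hM : M ≠ 0) (hq : q.Prime) (hcop : IsCoprime c M) (hqM : (q : ℤ) ∣ M)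
    (hqM2 : ¬ (q : ℤ) ^ 2 ∣ M) (hqp : q ≠ p) (hord : orderOf (q : ZMod p) = p - 1) :
    Irreducible ((HP p D.g D.r c M).map (Int.castRingHom ℚ)) := by
  set F := (HP p D.g D.r c M).map (Int.castRingHom ℚ) with hF
  have hdeg : F.natDegree = (p - 1) * e := by
    rw [hF, natDegree_map_eq_of_injective (RingHom.injective_int _)]
    exact hNAT p e k D c M hc hM
  have hn : 0 < (p - 1) * e := Nat.mul_pos (by have := D.hp2; omega) (by have := D.he; omega)
  have hF0 : F ≠ 0 := by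
    intro h
    rw [h, natDegree_zero] at hdeg
    omega
  obtain ⟨w, hw, hwF⟩ := exists_irreducible_of_natDegree_pos (f := F) (by omega)
  obtain ⟨K, hK1, hK2, θ, hfr, hθ, hgen⟩ := exists_field w hw
  obtain ⟨v, hv⟩ := hwF
  have hv0 : v ≠ 0 := by
    rintro rfl
    rw [mul_zero] at hv
    exact hF0 hv
  have hθF : aeval θ F = 0 := by rw [hv, map_mul, hθ, zero_mul]
  have hθ' : aeval θ (HP p D.g D.r c M) = 0 := by
    have h3 : (Int.castRingHom ℚ) = algebraMap ℤ ℚ := rfl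
    rw [hF, h3, aeval_map_algebraMap] at hθF
    exact hθF
  have h1 := hDEG p e k D c M q K θ hq hcop hqM hqM2 hqp hord hθ'
  rw [hfr] at h1
  have h2 : F.natDegree = w.natDegree + v.natDegree := by
    rw [hv, natDegree_mul hw.ne_zero hv0]
  have h3 : v.natDegree = 0 := by omega
  have hvu : IsUnit v := by
    rw [eq_C_of_natDegree_eq_zero h3, isUnit_C, isUnit_iff_ne_zero]
    intro h4
    apply hv0
    rw [eq_C_of_natDegree_eq_zero h3, h4, C_0]
  rw [hv]
  exact (irreducible_mul_isUnit hvu).2 hw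

theorem coreP (hNAT : S_NAT) (hDEG : S_DEG) (hDSC : S_DSC) (hEMB : TR.S_EMB) (hLOC : S_LOCP)
    (hIND : S_INDP) (hCH : S_CHP) {p e k : ℕ} (D : DatP p e k) (α β : ℝ) (hα : 0 < α)
    (hαβ : α < β) (hcount : ∀ σ : ℝ, α < σ → σ < β → ∀ x : ℝ,
      (aeval x D.g + σ) ^ p ≠ aeval x D.g ^ p + aeval x D.r) (N : ℕ) :
    ∃ (K : Type) (_ : Field K) (_ : NumberField K), Module.finrank ℚ K = (p - 1) * e ∧
      InfinitePlace.nrRealPlaces K = 0 ∧ (N : ℤ) < |discr K| ∧
      ∀ R, R + Units.rank K ≤ k →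
        ∃ f : Multiplicative (Fin R → ZMod p) →* ClassGroup (𝓞 K), Function.Injective f := by
  obtain ⟨c, M, q₀, hc, hM, hcop, hdiff, hq₀, hN, hqM, hqM2, hqp, hord, h1, h2, htest, hqz⟩ :=
    hCH p e k D α β N hα hαβ
  have hn : 1 ≤ (p - 1) * e := Nat.mul_pos (by have := D.hp2; omega) (by have := D.he; omega)
  have hdeg := hNAT p e k D c M hc.ne' hM.ne'
  have hirr := irrP hNAT hDEG D c M q₀ hc.ne' hM.ne' hq₀ hcop hqM hqM2 hqp hord
  obtain ⟨K, hK1, hK2, θ, hfr, hθ, hgen⟩ := exists_field _ hirr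
  rw [natDegree_map_eq_of_injective (RingHom.injective_int _), hdeg] at hfr
  have hcast : (Int.castRingHom ℚ) = algebraMap ℤ ℚ := rfl
  have hθ' : aeval θ (HP p D.g D.r c M) = 0 := by
    rw [hcast, aeval_map_algebraMap] at hθ
    exact hθ
  have hf : ∀ (R : Type) [CommRing R] (x : R),
      ∏ i, (x - (D.a i : R)) = aeval x D.g ^ p + aeval x D.r := by
    intro R _ x
    have h3 := congrArg (aeval x) D.hf
    rw [map_prod, map_add, map_pow] at h3
    rw [← h3]
    refine Finset.prod_congr rfl fun i _ => ?_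
    simp
  have hqpr : Prime (q₀ : ℤ) := Nat.prime_iff_prime_int.1 hq₀
  have hqc : ¬ (q₀ : ℤ) ∣ c := by
    intro h
    exact hqpr.not_isUnit (hcop.isUnit_of_dvd' h hqM)
  have hp0 : p ≠ 0 := D.hp.ne_zero
  have hpt : ∀ i, θ - (D.a i : K) ≠ 0 := by
    intro i h0
    have h3 : ∏ j, (θ - (D.a j : K)) = 0 := Finset.prod_eq_zero (Finset.mem_univ i) h0
    rw [hf] at h3
    rw [HP_aeval, h3, mul_zero, sub_zero] at hθ'
    have h5 : (M : K) * aeval θ D.g + c = 0 := (pow_eq_zero_iff hp0).1 hθ'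
    have h6 : θ = ((D.a i : ℤ) : K) := sub_eq_zero.1 h0
    have h7 : aeval θ D.g = ((D.g.eval (D.a i) : ℤ) : K) := by
      rw [h6, ← eq_intCast (algebraMap ℤ K), aeval_algebraMap_apply]
      simp
    rw [h7] at h5
    have h8 : M * D.g.eval (D.a i) + c = 0 := by exact_mod_cast h5
    have h10 : (q₀ : ℤ) ∣ M * D.g.eval (D.a i) := Dvd.dvd.mul_right hqM _
    exact hqc ((dvd_add_right h10).1 (h8 ▸ dvd_zero _))
  refine ⟨K, hK1, hK2, hfr, ?_, ?_, ?_⟩
  · rw [W240.CG.pl K _ θ hirr hθ hgen]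
    have hMR : (0 : ℝ) < M := by exact_mod_cast hM
    have h3 : {x : ℝ | aeval x ((HP p D.g D.r c M).map (Int.castRingHom ℚ)) = 0} = ∅ := by
      ext x
      simp only [Set.mem_ofPred_eq, Set.mem_empty_iff_false, iff_false]
      rw [hcast, aeval_map_algebraMap, HP_aeval]
      intro h4
      apply hcount ((c : ℝ) / M) ((lt_div_iff₀ hMR).2 h1) ((div_lt_iff₀ hMR).2 h2) x
      have h5 : aeval x D.g + (c : ℝ) / M = (M * aeval x D.g + c) / M := by
        field_simp
      rw [h5, div_pow, div_eq_iff (by positivity)]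
      linear_combination h4
    rw [h3, Set.ncard_empty]
  · have h3 := hDSC p e k D c M q₀ K θ hq₀ hcop hqM hqM2 hqp hθ'
    have h4 : (q₀ : ℤ) ≤ |discr K| := Int.le_of_dvd (abs_pos.2 (discr_ne_zero K))
      ((dvd_abs _ _).2 h3)
    have h5 : (N : ℤ) < q₀ := by exact_mod_cast hN
    linarith
  · intro R hR
    refine W930.CG.cls W240.CG.grp W125.CG.uni K k p R D.hp.two_le hR
      (fun j => Units.mk0 ((θ - (D.a j.castSucc.castSucc : K)) / (θ - (D.a (Fin.last (k + 1)) : K)))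
        (div_ne_zero (hpt _) (hpt _))) ?_ ?_ ?_
    · intro i
      refine W64.CG.val K p _ D.hp.one_le fun v => ?_
      exact hLOC p e k D K θ c M hM.ne' hcop hdiff hθ' hpt _ _ v
    · intro ℓ hℓ hℓp
      have h3 : ℓ = p := (Nat.prime_dvd_prime_iff_eq hℓ D.hp).1 hℓp
      subst h3
      intro E y he i
      obtain ⟨q, x, hT⟩ := htest i
      have : Fact q.Prime := ⟨hT.prime⟩
      have hφ := hEMB K θ _ ((ℓ - 1) * e) q x hn hdeg hfr hgen hθ' hT.root hT.simple
      refine hIND ℓ e k D K θ c M q i x hT hφ hpt E y ?_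
      rcases he with he | he
      · left
        have := congrArg (fun u : Kˣ => (u : K)) he
        simpa using this
      · right
        have := congrArg (fun u : Kˣ => (u : K)) he
        simpa using this
    · intro ℓ hℓ hℓp
      have h3 : ℓ = p := (Nat.prime_dvd_prime_iff_eq hℓ D.hp).1 hℓp
      subst h3
      refine ⟨fun _ => ?_, fun h => absurd h (by have := D.hp2; omega)⟩
      rintro ⟨ζ, hζ⟩
      obtain ⟨q, x, hq, hqp', hq1, hr, hs⟩ := hqz
      have : Fact q.Prime := ⟨hq⟩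
      obtain ⟨φ, -, -, -⟩ := hEMB K θ _ ((ℓ - 1) * e) q x hn hdeg hfr hgen hθ' hr hs
      exact hq1 (W349.CG.mu q ℓ (fun h => hqp' ((Nat.prime_dvd_prime_iff_eq hq hℓ).1 h))
        ⟨φ ζ, hζ.map_of_injective φ.injective⟩)

end Pool.Agent.J4H20.TP
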